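import Pool.Agent.BSI.Stmts

/-!
# BSI row ADJ: one more element multiplies the dimension by at most `δ`
-/

set_option autoImplicit false

namespace Pool.Agent.BSI.H10

open MvPolynomial Pool.Agent.Helper78_ACIT Pool.Agent.BSH

theorem adj (hil : Pool.Agent.BSH.HilStmt) : AdjStmt := by
  intro E A _ _ _ _ W g δ D hf h1 hδ hg
  refine (hil E A W g δ D hf h1 hδ (Or.inl hg)).trans ?_
  have hfg : (W ^ D).FG := (Module.Finite.iff_fg.mp hf).pow D
  haveI : Module.Finite E (W ^ D : Submodule E A) := Module.Finite.iff_fg.mpr hfg
  have hone : (1 : Submodule E A) ≤ W := Submodule.one_le.mpr h1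
  calc (∑ i ∈ Finset.range δ, if i ≤ D then Module.finrank E (W ^ (D - i) : Submodule E A) else 0)
      ≤ ∑ i ∈ Finset.range δ, Module.finrank E (W ^ D : Submodule E A) := by
        apply Finset.sum_le_sum
        intro i _
        split_ifs with h
        · exact Submodule.finrank_mono (pow_le_pow_right' hone (Nat.sub_le D i))
        · exact Nat.zero_le _
    _ = δ * Module.finrank E (W ^ D : Submodule E A) := by
        rw [Finset.sum_const, Finset.card_range, smul_eq_mul]

end Pool.Agent.BSI.H10
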