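import Pool.Agent.BSI.Stmts

/-!
# BSI, row MA2: the main lemma (adapted from the row MAI of the squad BSH, helper70)
-/

set_option autoImplicit false

open MvPolynomial

namespace Pool.Agent.BSI.H10

open Pool.Agent.BSH

theorem one_mem_sp {E A : Type} [Field E] [CommRing A] [Algebra E A] (B : Set A) (l : List A) :
    (1 : A) ∈ sp E B l :=
  Submodule.subset_span (Or.inl (Or.inl rfl))

theorem base_mem_sp {E A : Type} [Field E] [CommRing A] [Algebra E A] {B : Set A} (l : List A)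
    {x : A} (hx : x ∈ B) : x ∈ sp E B l :=
  Submodule.subset_span (Or.inl (Or.inr hx))

theorem sp_mono {E A : Type} [Field E] [CommRing A] [Algebra E A] {B B' : Set A} (l : List A)
    (h : B ⊆ B') : sp E B l ≤ sp E B' l :=
  Submodule.span_mono (Set.union_subset_union (Set.union_subset_union (Set.Subset.refl _) h)
    (Set.Subset.refl _))

theorem finite_sp {E A : Type} [Field E] [CommRing A] [Algebra E A] {B : Set A} (hB : B.Finite)
    (l : List A) : Module.Finite E (sp E B l) := by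
  have h : ({1} ∪ B ∪ {x | x ∈ l} : Set A).Finite :=
    ((Set.finite_singleton 1).union hB).union (List.finite_toSet l)
  exact Module.Finite.span_of_finite E h

theorem finite_vs (E : Type) [Field E] (n : ℕ) : (vs E n).Finite := by
  have h : vs E n ⊆ (fun i : ℕ => (X i : MvPolynomial ℕ E)) '' Set.Iio n := by
    rintro x ⟨i, hi, rfl⟩
    exact ⟨i, hi, rfl⟩
  exact ((Set.finite_Iio n).image _).subset h

theorem finite_pw (E : Type) [Field E] (k b c : ℕ) : (pw E k b c).Finite := by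
  have h : pw E k b c ⊆ (fun p : ℕ × ℕ => (X p.1 ^ b ^ p.2 : MvPolynomial ℕ E)) ''
      (Set.Iio k ×ˢ Set.Iic c) := by
    rintro x ⟨m, hm, j, hj, rfl⟩
    exact ⟨(m, j), ⟨hm, hj⟩, rfl⟩
  exact (((Set.finite_Iio k).prod (Set.finite_Iic c)).image _).subset h

theorem shf_lt {E : Type} [Field E] (k r d : ℕ) (a : ℕ → ℕ → E) {i : ℕ} (hi : i < k) :
    shf k r d a (X i) = X i := by
  rw [shf, aeval_X, if_neg (by omega)]

theorem shf_ge {E : Type} [Field E] (k r d : ℕ) (a : ℕ → ℕ → E) {j : ℕ} (hj : j < r) :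
    shf k r d a (X (k + j)) = X (k + j) + ∑ m ∈ Finset.range k, C (a m j) * X m ^ d := by
  rw [shf, aeval_X, if_pos (by omega), Nat.add_sub_cancel_left]

theorem mem_pow_of_mem {E A : Type} [Field E] [CommRing A] [Algebra E A] {W : Submodule E A}
    (h1 : (1 : A) ∈ W) {x : A} (hx : x ∈ W) {d : ℕ} (hd : 1 ≤ d) : x ∈ W ^ d := by
  obtain ⟨e, rfl⟩ : ∃ e, d = e + 1 := ⟨d - 1, by omega⟩
  rw [pow_succ']
  have h := Submodule.mul_mem_mul hx (Submodule.pow_mem_pow W h1 e)
  rwa [one_pow, mul_one] at h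

/-- a homomorphism which fixes `B` fixes the square of the span -/
theorem fix_sq {E A : Type} [Field E] [CommRing A] [Algebra E A] (φ : A →ₐ[E] A) (B : Set A)
    (h : ∀ x ∈ B, φ x = x) : ∀ u ∈ (sp E B []) ^ 2, φ u = u := by
  have h1 : ∀ u ∈ sp E B [], φ u = u := by
    intro u hu
    refine Submodule.span_induction ?_ (map_zero φ) (fun x y _ _ hx hy => by rw [map_add, hx, hy])
      (fun e x _ hx => by rw [map_smul, hx]) hu
    rintro x ((hx | hx) | hx)
    · rw [Set.mem_singleton_iff] at hx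
      rw [hx, map_one]
    · exact h x hx
    · simp at hx
  intro u hu
  rw [pow_two] at hu
  refine Submodule.mul_induction_on hu (fun x hx y hy => by rw [map_mul, h1 x hx, h1 y hy])
    (fun x y hx hy => by rw [map_add, hx, hy])

theorem ma2 (hb0 : Hb0Stmt) (hb2 : Hb2Stmt) (fm2 : Fm2Stmt) (bin : BinStmt) (lim : LimStmt)
    (chr : ChrStmt) (map : MapStmt) : Ma2Stmt := by
  intro E _ _ k r b c S a H hb hmin hc hH hsub
  obtain ⟨L, l, hL, hLsq, hl, hch, hpd⟩ := hc
  obtain ⟨c1, c2, c3, c4⟩ := chr E k r (b ^ (c + 1) + 1) a H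
  have hpwfix : ∀ x ∈ pw E k b c, shf k r (b ^ (c + 1) + 1) a x = x := by
    rintro x ⟨m, hm, j, hj, rfl⟩
    rw [map_pow, shf_lt k r _ a hm]
  have hLfix : ∀ x ∈ L, shf k r (b ^ (c + 1) + 1) a x = x := fun x hx =>
    fix_sq _ _ hpwfix x (hLsq x hx)
  obtain ⟨M, hM⟩ : ∃ M : List (MvPolynomial ℕ E), M =
    List.ofFn fun j : Fin r => shf k r (b ^ (c + 1) + 1) a (X (k + j)) := ⟨_, rfl⟩
  have hMlen : M.length = r := by rw [hM, List.length_ofFn]
  obtain ⟨B, hB⟩ : ∃ B : Set (MvPolynomial ℕ E), B = vs E (k + r) ∪ pw E k b c := ⟨_, rfl⟩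
  have hBfin0 : B.Finite := by rw [hB]; exact (finite_vs E (k + r)).union (finite_pw E k b c)
  have hvB : ∀ i < k + r, (X i : MvPolynomial ℕ E) ∈ B := by
    intro i hi; rw [hB]; exact Or.inl ⟨i, hi, rfl⟩
  have hpB : ∀ m < k, ∀ j ≤ c, (X m ^ b ^ j : MvPolynomial ℕ E) ∈ B := by
    intro m hm j hj; rw [hB]; exact Or.inr ⟨m, hm, j, hj, rfl⟩
  have hMpow : ∀ u ∈ M, u ∈ (sp E B []) ^ (b + 1) := by
    intro u hu
    rw [hM, List.mem_ofFn] at hu
    obtain ⟨j, rfl⟩ := hu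
    rw [shf_ge k r _ a j.2]
    refine Submodule.add_mem _ ?_ (Submodule.sum_mem _ fun m hm => ?_)
    · exact mem_pow_of_mem (one_mem_sp _ _)
        (base_mem_sp _ (hvB (k + j) (by have := j.2; omega))) (by omega)
    · rw [← smul_eq_C_mul]
      apply Submodule.smul_mem
      have hm' := Finset.mem_range.1 hm
      have e1 : (X m ^ (b ^ (c + 1) + 1) : MvPolynomial ℕ E) = (X m ^ b ^ c) ^ b * X m := by
        rw [← pow_mul, ← pow_succ, ← pow_succ]
      rw [e1, pow_succ]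
      exact Submodule.mul_mem_mul
        (Submodule.pow_mem_pow _ (base_mem_sp _ (hpB m hm' c le_rfl)) _)
        (base_mem_sp _ (hvB m (by omega)))
  have hLpow : ∀ u ∈ L, u ∈ (sp E B []) ^ 2 := by
    intro u hu
    have h1 : sp E (pw E k b c) [] ≤ sp E B [] := by
      apply sp_mono
      rw [hB]
      exact Set.subset_union_right
    exact pow_le_pow_left' h1 2 (hLsq u hu)
  have hmap := map E _ _ (shf k r (b ^ (c + 1) + 1) a) (vs E (k + r) ∪ pw E k b c ∪ {x | x ∈ L})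
    (B ∪ {x | x ∈ L} ∪ {x | x ∈ M}) l [] hch trivial (by
    rintro x ((⟨i, hi, rfl⟩ | hx) | hx)
    · by_cases hik : i < k
      · rw [shf_lt k r _ a hik]
        exact base_mem_sp _ (Or.inl (Or.inl (hvB i hi)))
      · obtain ⟨j, rfl⟩ : ∃ j, i = k + j := ⟨i - k, by omega⟩
        refine base_mem_sp _ (Or.inr ?_)
        change shf k r (b ^ (c + 1) + 1) a (X (k + j)) ∈ M
        rw [hM, List.mem_ofFn]
        exact ⟨⟨j, by omega⟩, rfl⟩
    · rw [hpwfix x hx]
      refine base_mem_sp _ (Or.inl (Or.inl ?_))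
      rw [hB]
      exact Or.inr hx
    · rw [hLfix x hx]
      exact base_mem_sp _ (Or.inl (Or.inr hx)))
  rw [List.append_nil] at hmap
  obtain ⟨hch2, hmem2⟩ := hmap
  obtain ⟨l2, hl2⟩ : ∃ l2 : List (MvPolynomial ℕ E),
    l2 = l.map (shf k r (b ^ (c + 1) + 1) a) := ⟨_, rfl⟩
  rw [← hl2] at hch2 hmem2
  have hl2len : l2.length ≤ S := by
    rw [hl2, List.length_map]
    exact hl
  have hBfin : (B ∪ {x | x ∈ L} ∪ {x | x ∈ M}).Finite :=
    (hBfin0.union (List.finite_toSet L)).union (List.finite_toSet M)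
  have hfin : Module.Finite E (sp E (B ∪ {x | x ∈ L} ∪ {x | x ∈ M}) l2) := finite_sp hBfin l2
  have hzz : ∀ i < k,
      zz k r a (shf k r (b ^ (c + 1) + 1) a H) i ∈ sp E (B ∪ {x | x ∈ L} ∪ {x | x ∈ M}) l2 ∧
      yy k r (b ^ (c + 1) + 1) a (shf k r (b ^ (c + 1) + 1) a H) i ∈
        sp E (B ∪ {x | x ∈ L} ∪ {x | x ∈ M}) l2 := by
    intro i hi
    constructor
    · rw [zz]
      refine Submodule.sum_mem _ fun j hj => ?_
      rw [← smul_eq_C_mul]
      apply Submodule.smul_mem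
      have hj' := Finset.mem_range.1 hj
      rw [c1 j hj']
      exact hmem2 _ (hpd _ (by omega))
    · rw [c2 i hi]
      exact hmem2 _ (hpd _ (by omega))
  have key : ∀ D0 : ℕ, (D0 + 1) ^ (k + r) * b ^ (k + 1 - r) ≤
      (2 ^ (S + r * c) * (b + 1) ^ r * 3 ^ (k + r)) * (D0 + ((c + 1) * b + 2)) ^ (k + r) := by
    intro D0
    have h1 := fm2 E k r b c D0 a (shf k r (b ^ (c + 1) + 1) a H)
      (sp E (B ∪ {x | x ∈ L} ∪ {x | x ∈ M}) l2) hb hmin (c3 hH) (c4 hsub) hfin
      (one_mem_sp _ _) (fun i hi => base_mem_sp _ (Or.inl (Or.inl (hvB i hi))))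
      (fun m hm j hj => base_mem_sp _ (Or.inl (Or.inl (hpB m hm j hj)))) hzz
    have h2 := hb2 E (MvPolynomial ℕ E) B L M l2 (b + 1) ((k + r) * D0 + k * ((c + 1) * b))
      (finite_sp hBfin0 []) (by omega) hLpow hMpow hch2
    have h3 := hb0 E k r b c ((k + r) * D0 + k * ((c + 1) * b)) (by omega)
    have h4 := bin (k + r) k ((c + 1) * b + 2) D0 (by omega) (by omega)
    rw [Nat.add_sub_cancel] at h4
    rw [W0, ← hB] at h3
    rw [hMlen] at h2
    have h5 : 2 ^ (L.length + l2.length) ≤ 2 ^ (S + r * c) :=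
      Nat.pow_le_pow_right (by norm_num) (by omega)
    have h6 : (b ^ c) ^ k * ((D0 + 1) ^ (k + r) * b ^ (k + 1 - r)) ≤
        (b ^ c) ^ k * ((2 ^ (S + r * c) * (b + 1) ^ r * 3 ^ (k + r)) *
          (D0 + ((c + 1) * b + 2)) ^ (k + r)) := by
      calc (b ^ c) ^ k * ((D0 + 1) ^ (k + r) * b ^ (k + 1 - r))
          = (D0 + 1) ^ (k + r) * ((b ^ c) ^ k * b ^ (k + 1 - r)) := by ring
        _ ≤ _ := h1
        _ ≤ _ := h2
        _ ≤ 2 ^ (S + r * c) * (b + 1) ^ r * ((b ^ c) ^ k *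
              (3 ^ (k + r) * (D0 + ((c + 1) * b + 2)) ^ (k + r))) :=
            Nat.mul_le_mul (Nat.mul_le_mul_right _ h5) (h3.trans (Nat.mul_le_mul_left _ h4))
        _ = _ := by ring
    exact Nat.le_of_mul_le_mul_left h6 (by positivity)
  exact lim (k + r) ((c + 1) * b + 2) _ _ key

end Pool.Agent.BSI.H10
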